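import Pool.Agent.N24.RW.Stm
import Pool.Agent.N514.TH.Dens

/-!
# Random orbits and polynomials of degree one in the first variable

Outside a pronull set of integral vectors there is a large prime which divides the value of a
polynomial `h` of degree one in the first variable exactly once and does not divide the value of a
coprime polynomial `G` (the density of the residue classes is from `Pool.Agent.N514.TH.Dens`); for
almost every random orbit there is one set of times of density zero for all these pairs.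
-/

set_option autoImplicit false

namespace Pool.Agent.N383.ORB

open MeasureTheory Filter Topology Pool.Agent.N24.RW
open Pool.Agent.N514.TH (Om Ok mem_Om dens_Om)
open Pool.Agent.R424.MP (ev CoprimeTo)

variable {s : ℕ}

/-- There is a prime above `D` which divides `h` exactly and does not divide `G`. -/
def Gd (h G : Polynomial (MvPolynomial (Fin s) ℤ)) (D : ℕ) (v : Fin (s + 1) → ℤ) : Prop :=
  ∃ p : ℕ, p.Prime ∧ D < p ∧ Ok h G p v

theorem pronull_one (hC : S_CRIT) (hD : S_CLO) (h G : Polynomial (MvPolynomial (Fin s) ℤ))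
    (hdeg : h.natDegree = 1) (hcop : CoprimeTo h G) (D : ℕ) :
    ProNull {v : Fin (s + 1) → ℤ | ¬ Gd h G D v} := by
  obtain ⟨p₀, hp₀⟩ := dens_Om h G hdeg hcop
  have hns : ¬ Summable (fun p : ℕ => if p.Prime then (1 / 4 * (1 / (p : ℝ)) : ℝ) else 0) := by
    intro h
    apply not_summable_one_div_on_primes
    refine (h.mul_left 4).congr fun p => ?_
    by_cases hp : p.Prime
    · simp [Set.indicator, hp]
    · simp [Set.indicator, hp]
  have h1 := hC (Fin (s + 1)) (fun p => p ^ 2) (fun p hp => Nat.one_le_pow _ _ hp.pos)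
    (fun p p' hp hp' hne => Nat.Coprime.pow 2 2 ((Nat.coprime_primes hp hp').2 hne))
    (fun p => Om h G p) (max p₀ D) (fun p => 1 / 4 * (1 / (p : ℝ))) (fun p => by positivity) hns
    (fun p hp hpT => by
      have h2 := hp₀ p hp (lt_of_le_of_lt (le_max_left _ _) hpT)
      unfold Pool.Agent.N666.TM.dens at h2
      have hpos : (0 : ℝ) < ((p ^ 2 : ℕ) : ℝ) ^ Fintype.card (Fin (s + 1)) := by
        have := hp.pos
        positivity
      rw [le_div_iff₀ hpos] at h2
      exact h2)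
  refine (hD (Fin (s + 1))).1 _ _ ?_ h1
  intro v hv p hp hpT hmem
  exact hv ⟨p, hp, lt_of_le_of_lt (le_max_right _ _) hpT, (mem_Om h G p hp.one_lt.le v).1 hmem⟩

/-- A finite union of pronull sets. -/
theorem pronull_union (hD : S_CLO) {ι : Type} [Fintype ι] [Nonempty ι] {L : Type} [Finite L]
    (A : L → Set (ι → ℤ)) (hA : ∀ l, ProNull (A l)) : ProNull (⋃ l, A l) := by
  classical
  have := Fintype.ofFinite L
  have h1 : ∀ S : Finset L, ProNull (⋃ l ∈ S, A l) := by
    intro S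
    induction S using Finset.induction_on with
    | empty =>
      refine (hD ι).2.2.1 inferInstance _ ?_
      simp
    | insert a S ha ih =>
      rw [Finset.set_biUnion_insert]
      exact (hD ι).2.1 _ _ (hA a) ih
  have h2 := h1 Finset.univ
  simpa using h2

/-! ### One set of times of density zero -/

/-- density zero -/
def DZ (E : Set ℕ) : Prop :=
  Tendsto (fun N : ℕ => (({n : ℕ | n < N ∧ n ∈ E}.ncard : ℕ) : ℝ) / (N : ℝ)) atTop (𝓝 0)

theorem fin_lt (E : Set ℕ) (N : ℕ) : {n : ℕ | n < N ∧ n ∈ E}.Finite :=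
  (Set.finite_lt_nat N).subset fun _ h => h.1

theorem DZ.mono {E E' : Set ℕ} (h : E ⊆ E') (hE : DZ E') : DZ E := by
  refine squeeze_zero (fun N => by positivity) (fun N => ?_) hE
  refine div_le_div_of_nonneg_right ?_ (Nat.cast_nonneg N)
  have hsub : {n : ℕ | n < N ∧ n ∈ E} ⊆ {n : ℕ | n < N ∧ n ∈ E'} := fun n hn => ⟨hn.1, h hn.2⟩
  exact_mod_cast Set.ncard_le_ncard hsub (fin_lt E' N)

theorem DZ.union {E E' : Set ℕ} (h : DZ E) (h' : DZ E') : DZ (E ∪ E') := by
  have h1 : Tendsto (fun N : ℕ => (({n : ℕ | n < N ∧ n ∈ E}.ncard : ℕ) : ℝ) / (N : ℝ) +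
      (({n : ℕ | n < N ∧ n ∈ E'}.ncard : ℕ) : ℝ) / (N : ℝ)) atTop (𝓝 0) := by
    have := Tendsto.add h h'
    rwa [add_zero] at this
  refine squeeze_zero (fun N => by positivity) (fun N => ?_) h1
  rw [← add_div]
  refine div_le_div_of_nonneg_right ?_ (Nat.cast_nonneg N)
  have h2 : {n : ℕ | n < N ∧ n ∈ E ∪ E'} = {n : ℕ | n < N ∧ n ∈ E} ∪ {n : ℕ | n < N ∧ n ∈ E'} := by
    ext n
    simp only [Set.mem_ofPred_eq, Set.mem_union]
    tauto
  rw [h2]
  exact_mod_cast Set.ncard_union_le _ _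

theorem DZ.empty : DZ (∅ : Set ℕ) := by
  unfold DZ
  simp

theorem DZ.biUnion {E : ℕ → Set ℕ} (h : ∀ j, DZ (E j)) (k : ℕ) : DZ (⋃ j ∈ Finset.range k, E j) := by
  induction k with
  | zero => simpa using DZ.empty
  | succ k ih =>
    rw [Finset.range_add_one, Finset.set_biUnion_insert]
    exact (h k).union ih

theorem diag {E : ℕ → Set ℕ} (hmono : Monotone E) (h : ∀ k, DZ (E k)) :
    ∃ E' : Set ℕ, DZ E' ∧ ∀ k, (E k \ E').Finite := by
  classical
  have hg : ∀ k : ℕ, ∃ g : ℕ, ∀ N : ℕ, g ≤ N →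
      (({n : ℕ | n < N ∧ n ∈ E k}.ncard : ℕ) : ℝ) / (N : ℝ) < 1 / (k + 1) := by
    intro k
    have h1 := (h k).eventually_lt_const (show (0 : ℝ) < 1 / (k + 1) by positivity)
    exact eventually_atTop.1 h1
  choose g hg using hg
  set κ : ℕ → ℕ := fun t => Nat.findGreatest (fun k => g k ≤ t) t with hκ
  have hκmono : Monotone κ := by
    intro t t' htt
    exact Nat.findGreatest_mono (fun k hk => le_trans hk htt) htt
  have hκge : ∀ k t, k ≤ t → g k ≤ t → k ≤ κ t := fun k t h1 h2 => Nat.le_findGreatest h1 h2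
  have hκsp : ∀ t, κ t ≠ 0 → g (κ t) ≤ t := by
    intro t h0
    exact Nat.findGreatest_of_ne_zero (P := fun k => g k ≤ t) (n := t) rfl h0
  refine ⟨{t | t ∈ E (κ t)}, ?_, fun k => ?_⟩
  · refine Metric.tendsto_atTop.2 fun ε hε => ?_
    obtain ⟨k₀, hk₀⟩ := exists_nat_one_div_lt hε
    refine ⟨k₀ + 1 + g (k₀ + 1), fun N hN => ?_⟩
    have hk : k₀ + 1 ≤ κ N := hκge _ _ (by omega) (by omega)
    have hgN : g (κ N) ≤ N := hκsp N (by omega)
    rw [Real.dist_eq, sub_zero, abs_of_nonneg (by positivity)]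
    have h1 : (({n : ℕ | n < N ∧ n ∈ {t | t ∈ E (κ t)}}.ncard : ℕ) : ℝ) / (N : ℝ) ≤
        (({n : ℕ | n < N ∧ n ∈ E (κ N)}.ncard : ℕ) : ℝ) / (N : ℝ) := by
      refine div_le_div_of_nonneg_right ?_ (Nat.cast_nonneg N)
      have hsub : {n : ℕ | n < N ∧ n ∈ {t | t ∈ E (κ t)}} ⊆ {n : ℕ | n < N ∧ n ∈ E (κ N)} :=
        fun n hn => ⟨hn.1, hmono (hκmono hn.1.le) hn.2⟩
      exact_mod_cast Set.ncard_le_ncard hsub (fin_lt _ N)
    refine lt_of_le_of_lt h1 (lt_trans (hg (κ N) N hgN) ?_)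
    refine lt_of_le_of_lt ?_ hk₀
    apply one_div_le_one_div_of_le (by positivity)
    have : ((k₀ + 1 : ℕ) : ℝ) ≤ (κ N : ℕ) := by exact_mod_cast hk
    push_cast at this
    linarith
  · refine (Set.finite_lt_nat (max k (g k))).subset ?_
    rintro t ⟨h1, h2⟩
    by_contra hcon
    have h3 : max k (g k) ≤ t := not_lt.1 hcon
    exact h2 (hmono (hκge k t ((le_max_left _ _).trans h3) ((le_max_right _ _).trans h3)) h1)

/-! ### The countable set of conditions -/

/-- a pair of coprime polynomials, the first of degree one in the first variable, and a choice of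
coordinates -/
structure Dt (ν : Type) where
  s : ℕ
  j : Fin (s + 1) ↪ ν
  h : Polynomial (MvPolynomial (Fin s) ℤ)
  G : Polynomial (MvPolynomial (Fin s) ℤ)
  deg : h.natDegree = 1
  cop : CoprimeTo h G

theorem countable_mv (s : ℕ) : Countable (MvPolynomial (Fin s) ℤ) := by
  rw [← Cardinal.mk_le_aleph0_iff]
  refine MvPolynomial.cardinalMk_le_max.trans ?_
  simp

theorem countable_poly (s : ℕ) : Countable (Polynomial (MvPolynomial (Fin s) ℤ)) := by
  have := countable_mv s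
  rw [← Cardinal.mk_le_aleph0_iff]
  refine Polynomial.cardinalMk_le_max.trans ?_
  simp

instance {ν : Type} [Finite ν] : Countable (Dt ν) := by
  have := countable_poly
  have h0 : ∀ s : ℕ, Countable (Fin (s + 1) ↪ ν) := fun s =>
    (DFunLike.coe_injective (F := Fin (s + 1) ↪ ν)).countable
  have h1 : Function.Injective (fun d : Dt ν => (⟨d.s, d.j, d.h, d.G⟩ :
      Σ s : ℕ, (Fin (s + 1) ↪ ν) × Polynomial (MvPolynomial (Fin s) ℤ) ×
        Polynomial (MvPolynomial (Fin s) ℤ))) := by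
    rintro ⟨s, j, h, G, h1, h2⟩ ⟨s', j', h', G', h1', h2'⟩ heq
    simp only [Sigma.mk.injEq] at heq
    obtain ⟨rfl, h3⟩ := heq
    have h4 := eq_of_heq h3
    simp only [Prod.mk.injEq] at h4
    obtain ⟨rfl, rfl, rfl⟩ := h4
    rfl
  exact h1.countable

/-- **One set of times of density zero for all pairs of coprime polynomials.** -/
theorem engine (hC : S_CRIT) (hD : S_CLO) (hM : S_MAIN) {ν : Type} [Fintype ν] [DecidableEq ν]
    (hν : 2 ≤ Fintype.card ν) (W : Walk ν) (v : ν → ℤ) (hv : v ≠ 0) :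
    ∀ᵐ w ∂(words W.m), ∃ E : Set ℕ, DZ E ∧ ∀ (d : Dt ν) (D : ℕ),
      {n : ℕ | n ∉ E ∧ ¬ Gd d.h d.G D (fun i => orb W v w n (d.j i))}.Finite := by
  classical
  have h1 : ∀ (d : Dt ν) (D : ℕ), AlmostNever W v {t : ν → ℤ | ¬ Gd d.h d.G D (fun i => t (d.j i))} :=
    fun d D => hM ν hν W v hv _ ((hD (Fin (d.s + 1))).2.2.2.2 ν d.j d.j.injective _
      (pronull_one hC hD d.h d.G d.deg d.cop D))
  have h2 : ∀ᵐ w ∂(words W.m), ∀ (d : Dt ν) (D : ℕ),
      DZ {n : ℕ | ¬ Gd d.h d.G D (fun i => orb W v w n (d.j i))} :=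
    ae_all_iff.2 fun d => ae_all_iff.2 fun D => h1 d D
  filter_upwards [h2] with w hw
  by_cases hne : Nonempty (Dt ν)
  · obtain ⟨f, hf⟩ := exists_surjective_nat (Dt ν)
    let A : ℕ → ℕ → Set ℕ := fun j k =>
      {n : ℕ | ¬ Gd (f j).h (f j).G k (fun i => orb W v w n ((f j).j i))}
    have hAm : ∀ j k k', k ≤ k' → A j k ⊆ A j k' := by
      rintro j k k' hkk n hn ⟨p, hp, hpk, hok⟩
      exact hn ⟨p, hp, lt_of_le_of_lt hkk hpk, hok⟩
    have hmono : Monotone (fun k : ℕ => ⋃ j ∈ Finset.range (k + 1), A j k) := by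
      intro k k' hkk n hn
      simp only [Set.mem_iUnion, Finset.mem_range] at hn ⊢
      obtain ⟨j, hj, hn⟩ := hn
      exact ⟨j, by omega, hAm j k k' hkk hn⟩
    obtain ⟨E, hE, hfin⟩ := diag hmono fun k => DZ.biUnion (fun j => hw (f j) k) (k + 1)
    refine ⟨E, hE, fun d D => ?_⟩
    obtain ⟨j, rfl⟩ := hf d
    refine (hfin (max j D)).subset ?_
    rintro n ⟨hn, hn'⟩
    refine ⟨?_, hn⟩
    simp only [Set.mem_iUnion, Finset.mem_range]
    exact ⟨j, Nat.lt_succ_of_le (le_max_left _ _), hAm j D _ (le_max_right _ _) hn'⟩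
  · refine ⟨∅, DZ.empty, fun d => absurd ⟨d⟩ hne⟩

end Pool.Agent.N383.ORB
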