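import Pool.Agent.N383.ORB.Base
import Pool.Agent.R424.MP.Pink

/-!
# Random orbits and Pink's conjecture for families of subvarieties of the powers of elliptic schemes
-/

set_option autoImplicit false

namespace Pool.Agent.N383.ORB

open MeasureTheory Filter Topology Pool.Agent.N24.RW
open Pool.Agent.N514.TH (Ok)
open Pool.Agent.R424.MP Pool.Agent.R424.PT Pool.Agent.R424.TG
open Pool.Agent.Results.MP_28d749_ag.RandomMultisections (curve)

/-- The member with the parameters `t` has no atypical intersection with algebraic subgroups. -/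
def PinkAt {s r q N : ℕ} (m : ℕ) {κ : Type} (supp : κ → Finset ((Coord r q ⊕ Fin N) →₀ ℕ))
    (c : κ → ((Coord r q ⊕ Fin N) →₀ ℕ) → Polynomial (MvPolynomial (Fin s) ℤ))
    (t : Fin (s + 1) → ℤ) : Prop :=
  NoAtypicalP m (OnX supp (fun j β => ((ev (t 0) (fun i => t i.succ) (c j β) : ℤ) : ℂ)) :
    ∀ x : Fin 2 ⊕ Fin r → ℂ, (Fin q → (curve (x (Sum.inl 0)) (x (Sum.inl 1))).Point) → Prop)

variable {s r q N : ℕ} {κ : Type}

/-- **The local criterion**: finitely many pairs of coprime polynomials decide. -/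
theorem local_crit [Finite κ] {m M : ℕ} (supp : κ → Finset ((Coord r q ⊕ Fin N) →₀ ℕ))
    (c : κ → ((Coord r q ⊕ Fin N) →₀ ℕ) → Polynomial (MvPolynomial (Fin s) ℤ))
    (h : Fin M → Polynomial (MvPolynomial (Fin s) ℤ))
    (e : Fin M → κ → ((Coord r q ⊕ Fin N) →₀ ℕ) → ℕ)
    (he : ∀ l j, ∀ β ∈ supp j, HasOrd (h l) (c j β) (e l j β)) (hgen : GenericP m supp e) :
    ∃ G : Fin M → Polynomial (MvPolynomial (Fin s) ℤ), (∀ l, CoprimeTo (h l) (G l)) ∧
      ∀ t : Fin (s + 1) → ℤ, (∀ l, Gd (h l) (G l) 0 t) → PinkAt m supp c t := by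
  classical
  have := Fintype.ofFinite κ
  let ι := Σ j : κ, {β // β ∈ supp j}
  have hg : ∀ (l : Fin M) (x : ι), ∃ g, c x.1 x.2 = h l ^ e l x.1 x.2 * g ∧ CoprimeTo (h l) g :=
    fun l x => he l x.1 _ x.2.2
  choose g hg1 hg2 using hg
  let G : Fin M → Polynomial (MvPolynomial (Fin s) ℤ) := fun l => ∏ x : ι, g l x
  have hcop : ∀ l, CoprimeTo (h l) (G l) := fun l => CoprimeTo.prod _ _ (hg2 l)
  refine ⟨G, hcop, fun t ht => ?_⟩
  choose p hp hp0 hok using ht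
  refine coreP m supp _ e hgen p hp fun l j β hβ V hV => ?_
  obtain ⟨hph, hp2, hpG⟩ := hok l
  have h1 := hg1 l ⟨j, β, hβ⟩
  have h2 : ¬ (p l : ℤ) ∣ ev (t 0) (fun i => t i.succ) (g l ⟨j, β, hβ⟩) := by
    intro h3
    apply hpG
    change (p l : ℤ) ∣ ev (t 0) (fun i => t i.succ) (∏ x : ι, g l x)
    rw [map_prod]
    exact h3.trans (Finset.dvd_prod_of_mem _ (Finset.mem_univ (⟨j, β, hβ⟩ : ι)))
  have h3 : ev (t 0) (fun i => t i.succ) (c j β) =
      ev (t 0) (fun i => t i.succ) (h l) ^ e l j β *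
        ev (t 0) (fun i => t i.succ) (g l ⟨j, β, hβ⟩) := by
    rw [h1, map_mul, map_pow]
  obtain ⟨u, hu⟩ := hph
  have hpu : ¬ (p l : ℤ) ∣ u := by
    rintro ⟨u', rfl⟩
    exact hp2 ⟨u', by rw [hu]; ring⟩
  have h4 : V.valuation ((ev (t 0) (fun i => t i.succ) (h l) : ℤ) : ℂ) =
      V.valuation (p l : ℂ) := by
    rw [hu]
    push_cast
    rw [map_mul, Pool.Agent.W466.ZP.int_unit V (hp l) hV _ hpu, mul_one]
  rw [h3]
  push_cast
  rw [map_mul, map_pow, h4, Pool.Agent.W466.ZP.int_unit V (hp l) hV _ h2, mul_one]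

theorem pink_pronull (hC : S_CRIT) (hD : S_CLO) [Finite κ] {m M : ℕ}
    (supp : κ → Finset ((Coord r q ⊕ Fin N) →₀ ℕ))
    (c : κ → ((Coord r q ⊕ Fin N) →₀ ℕ) → Polynomial (MvPolynomial (Fin s) ℤ))
    (h : Fin M → Polynomial (MvPolynomial (Fin s) ℤ)) (hdeg : ∀ l, (h l).natDegree = 1)
    (e : Fin M → κ → ((Coord r q ⊕ Fin N) →₀ ℕ) → ℕ)
    (he : ∀ l j, ∀ β ∈ supp j, HasOrd (h l) (c j β) (e l j β)) (hgen : GenericP m supp e) :
    ProNull {t : Fin (s + 1) → ℤ | ¬ PinkAt m supp c t} := by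
  obtain ⟨G, hcop, hG⟩ := local_crit supp c h e he hgen
  refine (hD (Fin (s + 1))).1 _ _ ?_ (pronull_union hD
    (fun l => {t : Fin (s + 1) → ℤ | ¬ Gd (h l) (G l) 0 t})
    fun l => pronull_one hC hD (h l) (G l) (hdeg l) (hcop l) 0)
  intro t ht
  by_contra hcon
  apply ht
  refine hG t fun l => ?_
  by_contra hl
  exact hcon (Set.mem_iUnion.2 ⟨l, hl⟩)

theorem pink_orbits (hC : S_CRIT) (hD : S_CLO) (hM : S_MAIN) {ν : Type} [Fintype ν]
    [DecidableEq ν] (hν : 2 ≤ Fintype.card ν) (W : Walk ν) (v : ν → ℤ) (hv : v ≠ 0) :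
    ∀ᵐ w ∂(words W.m), ∃ E : Set ℕ,
      Tendsto (fun T : ℕ => (({n : ℕ | n < T ∧ n ∈ E}.ncard : ℕ) : ℝ) / (T : ℝ)) atTop (𝓝 0) ∧
      ∀ (s r q N m M : ℕ) (f : Fin (s + 1) → ν), Function.Injective f →
        ∀ (κ : Type) [Finite κ] (supp : κ → Finset ((Coord r q ⊕ Fin N) →₀ ℕ))
          (c : κ → ((Coord r q ⊕ Fin N) →₀ ℕ) → Polynomial (MvPolynomial (Fin s) ℤ))
          (h : Fin M → Polynomial (MvPolynomial (Fin s) ℤ)), (∀ l, (h l).natDegree = 1) →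
          ∀ e : Fin M → κ → ((Coord r q ⊕ Fin N) →₀ ℕ) → ℕ,
            (∀ l j, ∀ β ∈ supp j, HasOrd (h l) (c j β) (e l j β)) → GenericP m supp e →
            {n : ℕ | n ∉ E ∧ ¬ PinkAt m supp c (fun i => orb W v w n (f i))}.Finite := by
  filter_upwards [engine hC hD hM hν W v hv] with w hw
  obtain ⟨E, hE, hfin⟩ := hw
  refine ⟨E, hE, ?_⟩
  intro s r q N m M f hf κ _ supp c h hdeg e he hgen
  obtain ⟨G, hcop, hG⟩ := local_crit supp c h e he hgen
  have h1 : (⋃ l : Fin M, {n : ℕ | n ∉ E ∧ ¬ Gd (h l) (G l) 0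
      (fun i => orb W v w n (f i))}).Finite :=
    Set.finite_iUnion fun l => hfin ⟨s, ⟨f, hf⟩, h l, G l, hdeg l, hcop l⟩ 0
  refine h1.subset ?_
  rintro n ⟨hn, hn'⟩
  by_contra hcon
  apply hn'
  refine hG _ fun l => ?_
  by_contra hl
  exact hcon (Set.mem_iUnion.2 ⟨l, hn, hl⟩)

end Pool.Agent.N383.ORB
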